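import Pool.Agent.L7h85.RL.Stm

/-!
# Nash inequality for weighted bipartite graphs

Tasks S_NASH and S_REC of the project RL of helper85.
-/

set_option autoImplicit false

namespace Pool.Agent.L7h89.RL

open Finset MeasureTheory

universe u

section cover

variable {C C' : Type u} [Fintype C] [Fintype C']

/-- the value of the function `u` at a vertex or at the boundary -/
def UU (u : C → ℝ) : Option C → ℝ := fun x => x.elim 0 u

lemma nash_cover (u : C → ℝ) (wt : C' × C × Option C → ℝ)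
    (hwt : ∀ e, 0 ≤ wt e)
    (H : ∀ F : Finset C, F.Nonempty → ∃ e : C' × C × Option C, e.2.1 ∈ F ∧
      (∀ ρ', e.2.2 = some ρ' → ρ' ∉ F) ∧ 1 ≤ wt e) (ρ₀ : C)
    (hpos : 0 < u ρ₀) :
    (u ρ₀ / 2) ^ 2 ≤ ((univ.filter fun ρ => u ρ₀ / 2 < u ρ).card : ℝ) *
      ∑ e : C' × C × Option C, if UU u e.2.2 < u e.2.1 then
        wt e * (u e.2.1 - UU u e.2.2) ^ 2 else 0 := by
  classical
  set F₀ : Finset C := univ.filter fun ρ => u ρ₀ / 2 < u ρ with hF₀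
  have hne : ∀ ρ : C, (univ.filter fun ρ' => u ρ ≤ u ρ').Nonempty := fun ρ => ⟨ρ, by simp⟩
  choose e he1 he2 he3 using fun ρ : C => H _ (hne ρ)
  have hhi : ∀ ρ, u ρ ≤ u (e ρ).2.1 := fun ρ => (mem_filter.1 (he1 ρ)).2
  have hlo : ∀ ρ, 0 < u ρ → UU u (e ρ).2.2 < u ρ := by
    intro ρ hρ
    rcases hx : (e ρ).2.2 with _ | ρ'
    · simpa [UU] using hρ
    · have := he2 ρ ρ' hx
      simp only [mem_filter, mem_univ, true_and, not_le] at this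
      simpa [UU] using this
  have hF₀pos : ∀ ρ ∈ F₀, 0 < u ρ := by
    intro ρ hρ
    have := (mem_filter.1 hρ).2
    linarith
  set S := F₀.image e with hS
  have hcov : Set.Ioc (u ρ₀ / 2) (u ρ₀) ⊆ ⋃ x ∈ S, Set.Ioc (UU u x.2.2) (u x.2.1) := by
    rintro l ⟨hl1, hl2⟩
    obtain ⟨ρ, hρ, hmin⟩ := exists_min_image (univ.filter fun ρ => l ≤ u ρ) u ⟨ρ₀, by simp [hl2]⟩
    have hlρ : l ≤ u ρ := (mem_filter.1 hρ).2
    refine Set.mem_iUnion₂.2 ⟨e ρ, mem_image.2 ⟨ρ, by simp [hF₀]; linarith, rfl⟩, ?_, hlρ.trans (hhi ρ)⟩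
    rcases hx : (e ρ).2.2 with _ | ρ'
    · simp only [UU, Option.elim]
      linarith
    · have h1 := he2 ρ ρ' hx
      simp only [mem_filter, mem_univ, true_and, not_le] at h1
      simp only [UU, Option.elim]
      by_contra h2
      have := hmin ρ' (by simpa using h2)
      linarith
  have hlen : u ρ₀ / 2 ≤ ∑ x ∈ S, (u x.2.1 - UU u x.2.2) := by
    have h1 := (measure_mono hcov).trans (measure_biUnion_finset_le (μ := volume) S _)
    simp only [Real.volume_Ioc] at h1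
    rw [← ENNReal.ofReal_sum_of_nonneg] at h1
    · rw [ENNReal.ofReal_le_ofReal_iff] at h1
      · linarith
      · refine sum_nonneg fun x hx => ?_
        obtain ⟨ρ, hρ, rfl⟩ := mem_image.1 hx
        have := hlo ρ (hF₀pos ρ hρ)
        have := hhi ρ
        linarith
    · intro x hx
      obtain ⟨ρ, hρ, rfl⟩ := mem_image.1 hx
      have := hlo ρ (hF₀pos ρ hρ)
      have := hhi ρ
      linarith
  have h2 : (u ρ₀ / 2) ^ 2 ≤ (∑ x ∈ S, (u x.2.1 - UU u x.2.2)) ^ 2 := by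
    gcongr
  have h3 : (∑ x ∈ S, (u x.2.1 - UU u x.2.2)) ^ 2 ≤ (S.card : ℝ) *
      ∑ x ∈ S, (u x.2.1 - UU u x.2.2) ^ 2 := sq_sum_le_card_mul_sum_sq
  have h4 : (S.card : ℝ) ≤ F₀.card := by exact_mod_cast card_image_le
  have h5 : ∑ x ∈ S, (u x.2.1 - UU u x.2.2) ^ 2 ≤ ∑ e : C' × C × Option C,
      if UU u e.2.2 < u e.2.1 then wt e * (u e.2.1 - UU u e.2.2) ^ 2 else 0 := by
    calc ∑ x ∈ S, (u x.2.1 - UU u x.2.2) ^ 2
        ≤ ∑ e ∈ S, if UU u e.2.2 < u e.2.1 then wt e * (u e.2.1 - UU u e.2.2) ^ 2 else 0 := by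
          refine sum_le_sum fun x hx => ?_
          obtain ⟨ρ, hρ, rfl⟩ := mem_image.1 hx
          have := hlo ρ (hF₀pos ρ hρ)
          have := hhi ρ
          rw [if_pos (by linarith)]
          have h6 := he3 ρ
          have h7 := sq_nonneg (u (e ρ).2.1 - UU u (e ρ).2.2)
          nlinarith
      _ ≤ _ := by
          refine sum_le_sum_of_subset_of_nonneg (subset_univ _) fun x _ _ => ?_
          split_ifs
          · have := hwt x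
            positivity
          · exact le_rfl
  have h0 : (0 : ℝ) ≤ ∑ x ∈ S, (u x.2.1 - UU u x.2.2) ^ 2 := sum_nonneg fun x _ => sq_nonneg _
  calc (u ρ₀ / 2) ^ 2 ≤ _ := h2
    _ ≤ _ := h3
    _ ≤ _ := by gcongr

lemma sum_pairs (a u : C → ℝ) :
    ∑ ρ, ∑ ρ', (if u ρ' < u ρ then a ρ * a ρ' * (u ρ - u ρ') ^ 2 else 0) =
      (∑ ρ, a ρ) * ∑ ρ, a ρ * u ρ ^ 2 - (∑ ρ, a ρ * u ρ) ^ 2 := by
  set A := ∑ ρ, ∑ ρ', (if u ρ' < u ρ then a ρ * a ρ' * (u ρ - u ρ') ^ 2 else 0) with hA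
  have h3 : A = ∑ ρ, ∑ ρ', (if u ρ < u ρ' then a ρ * a ρ' * (u ρ - u ρ') ^ 2 else 0) := by
    rw [hA, sum_comm]
    refine sum_congr rfl fun ρ _ => sum_congr rfl fun ρ' _ => ?_
    split_ifs <;> ring
  have h2 : ∑ ρ, ∑ ρ', a ρ * a ρ' * (u ρ - u ρ') ^ 2 = A + A := by
    conv_rhs => rw [h3]; rhs; rw [← h3]
    rw [hA, ← sum_add_distrib]
    refine sum_congr rfl fun ρ _ => ?_
    rw [← sum_add_distrib]
    refine sum_congr rfl fun ρ' _ => ?_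
    rcases lt_trichotomy (u ρ) (u ρ') with h | h | h
    · rw [if_pos h, if_neg h.le.not_gt]; ring
    · rw [h]; simp
    · rw [if_pos h, if_neg h.le.not_gt]; ring
  have h4 : ∑ ρ, ∑ ρ', a ρ * a ρ' * (u ρ - u ρ') ^ 2 =
      2 * ((∑ ρ, a ρ) * ∑ ρ, a ρ * u ρ ^ 2 - (∑ ρ, a ρ * u ρ) ^ 2) := by
    have e1 : ∀ ρ ρ', a ρ * a ρ' * (u ρ - u ρ') ^ 2 = a ρ * u ρ ^ 2 * a ρ' +
        a ρ * (a ρ' * u ρ' ^ 2) - 2 * (a ρ * u ρ) * (a ρ' * u ρ') := fun _ _ => by ring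
    simp only [e1, sum_add_distrib, sum_sub_distrib, ← mul_sum, ← sum_mul]
    ring
  linarith

lemma lagrange (a u : C → ℝ) (ha : ∀ ρ, 0 ≤ a ρ) (τ : ℝ) (hτ : 0 ≤ τ) :
    (∑ ρ, ∑ x : Option C, if UU u x < u ρ then
      (x.elim (τ * a ρ) fun ρ' => a ρ * a ρ') * (u ρ - UU u x) ^ 2 else 0) ≤
    (∑ ρ, a ρ + τ) * ∑ ρ, a ρ * u ρ ^ 2 - (∑ ρ, a ρ * u ρ) ^ 2 := by
  have h1 : ∀ ρ, (∑ x : Option C, if UU u x < u ρ then
      (x.elim (τ * a ρ) fun ρ' => a ρ * a ρ') * (u ρ - UU u x) ^ 2 else 0) ≤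
      τ * (a ρ * u ρ ^ 2) + ∑ ρ', if u ρ' < u ρ then a ρ * a ρ' * (u ρ - u ρ') ^ 2 else 0 := by
    intro ρ
    rw [Fintype.sum_option]
    simp only [UU, Option.elim, sub_zero]
    refine add_le_add ?_ le_rfl
    have := ha ρ
    split_ifs
    · linarith
    · positivity
  refine (sum_le_sum fun ρ _ => h1 ρ).trans ?_
  rw [sum_add_distrib, ← mul_sum, sum_pairs]
  linarith

end cover

/-- task S_NASH -/
theorem s_NASH : Pool.Agent.L7h85.RL.S_NASH.{u} := by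
  classical
  intro C C' _ _ w d d' t o hw hd h1 h2 h3
  rcases isEmpty_or_nonempty C with hC | hC
  · simp
  have hdr : ∀ ρ, (0 : ℝ) < d ρ := fun ρ => by exact_mod_cast hd ρ
  have hdr1 : ∀ ρ, (1 : ℝ) ≤ d ρ := fun ρ => by exact_mod_cast hd ρ
  set u : C → ℝ := fun ρ => w ρ / d ρ with hu
  have hu0 : ∀ ρ, 0 ≤ u ρ := fun ρ => div_nonneg (hw ρ) (hdr ρ).le
  have hwu : ∀ ρ, w ρ = d ρ * u ρ := fun ρ => by
    simp only [hu]
    rw [mul_div_cancel₀ _ (hdr ρ).ne']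
  set L : ℝ := ∑ ρ, w ρ * d ρ with hL
  set D : ℝ := (o : ℝ) ^ 2 * ∑ ρ, w ρ ^ 2 - ∑ σ, (∑ ρ, (t ρ σ : ℝ) * w ρ) ^ 2 with hD
  obtain ⟨ρ₀, -, hmax⟩ := exists_max_image (univ : Finset C) u univ_nonempty
  replace hmax : ∀ ρ, u ρ ≤ u ρ₀ := fun ρ => hmax ρ (mem_univ _)
  have hL0 : 0 ≤ L := sum_nonneg fun ρ _ => mul_nonneg (hw ρ) (hdr ρ).le
  have hw2 : ∑ ρ, w ρ ^ 2 ≤ u ρ₀ * L := by
    rw [hL, mul_sum]
    refine sum_le_sum fun ρ _ => ?_
    have e : w ρ ^ 2 = u ρ * (w ρ * d ρ) := by rw [hwu]; ring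
    rw [e]
    exact mul_le_mul_of_nonneg_right (hmax ρ) (mul_nonneg (hw ρ) (hdr ρ).le)
  -- the defect
  set τ : C' → ℝ := fun σ => (o : ℝ) * d' σ - ∑ ρ, (t ρ σ : ℝ) * d ρ with hτ
  have hτ0 : ∀ σ, 0 ≤ τ σ := by
    intro σ
    have := h2 σ
    simp only [hτ, sub_nonneg]
    exact_mod_cast this
  set wt : C' × C × Option C → ℝ := fun e => e.2.2.elim (τ e.1 * (t e.2.1 e.1 * d e.2.1))
    fun ρ' => (t e.2.1 e.1 * d e.2.1) * (t ρ' e.1 * d ρ') with hwt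
  have hwt0 : ∀ e, 0 ≤ wt e := by
    rintro ⟨σ, ρ, _ | ρ'⟩
    · simp only [hwt, Option.elim]
      have := hτ0 σ
      positivity
    · simp only [hwt, Option.elim]
      positivity
  have hH : ∀ F : Finset C, F.Nonempty → ∃ e : C' × C × Option C, e.2.1 ∈ F ∧
      (∀ ρ', e.2.2 = some ρ' → ρ' ∉ F) ∧ 1 ≤ wt e := by
    intro F hF
    obtain ⟨σ, ⟨ρ, hρ, hρt⟩, h⟩ := h3 F hF
    have hA : 1 ≤ t ρ σ * d ρ := Nat.one_le_iff_ne_zero.2 (mul_ne_zero hρt (hd ρ).ne')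
    rcases h with ⟨ρ', hρ', ht'⟩ | h
    · refine ⟨(σ, ρ, some ρ'), hρ, fun x hx => by simp at hx; subst hx; exact hρ', ?_⟩
      have hB : 1 ≤ t ρ' σ * d ρ' := Nat.one_le_iff_ne_zero.2 (mul_ne_zero ht' (hd ρ').ne')
      have : 1 ≤ (t ρ σ * d ρ) * (t ρ' σ * d ρ') := Nat.one_le_iff_ne_zero.2
        (mul_ne_zero (by omega) (by omega))
      simp only [hwt, Option.elim]
      exact_mod_cast this
    · refine ⟨(σ, ρ, none), hρ, fun x hx => by simp at hx, ?_⟩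
      simp only [hwt, Option.elim]
      have hτ1 : 1 ≤ τ σ := by
        have h' : ∑ ρ, t ρ σ * d ρ + 1 ≤ o * d' σ := h
        have h'' : (∑ ρ, (t ρ σ : ℝ) * d ρ) + 1 ≤ (o : ℝ) * d' σ := by exact_mod_cast h'
        simp only [hτ]
        linarith
      have hA' : (1 : ℝ) ≤ t ρ σ * d ρ := by exact_mod_cast hA
      nlinarith
  have hDlow : (∑ e : C' × C × Option C, if UU u e.2.2 < u e.2.1 then
        wt e * (u e.2.1 - UU u e.2.2) ^ 2 else 0) ≤ D := by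
    rw [Fintype.sum_prod_type]
    have e1 : ∀ σ : C', (∑ y : C × Option C, if UU u (σ, y).2.2 < u (σ, y).2.1 then
        wt (σ, y) * (u (σ, y).2.1 - UU u (σ, y).2.2) ^ 2 else 0) ≤
        (o : ℝ) * d' σ * ∑ ρ, (t ρ σ * d ρ) * u ρ ^ 2 - (∑ ρ, (t ρ σ : ℝ) * w ρ) ^ 2 := by
      intro σ
      rw [Fintype.sum_prod_type]
      have := lagrange (fun ρ => (t ρ σ : ℝ) * d ρ) u (fun ρ => by positivity) (τ σ) (hτ0 σ)
      have e2 : (∑ ρ, (t ρ σ : ℝ) * d ρ) + τ σ = o * d' σ := by simp only [hτ]; ring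
      have e3 : (∑ ρ, (t ρ σ : ℝ) * d ρ * u ρ) = ∑ ρ, (t ρ σ : ℝ) * w ρ :=
        sum_congr rfl fun ρ _ => by rw [hwu ρ]; ring
      rw [e2, e3] at this
      exact this
    refine (sum_le_sum fun σ _ => e1 σ).trans (le_of_eq ?_)
    rw [sum_sub_distrib, hD]
    congr 1
    simp only [mul_sum]
    rw [sum_comm]
    refine sum_congr rfl fun ρ _ => ?_
    have e4 : (∑ σ, (t ρ σ : ℝ) * d' σ) = o * d ρ := by exact_mod_cast h1 ρ
    calc ∑ σ, (o : ℝ) * d' σ * (t ρ σ * d ρ * u ρ ^ 2)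
        = (∑ σ, (t ρ σ : ℝ) * d' σ) * (o * d ρ * u ρ ^ 2) := by
          rw [sum_mul]
          exact sum_congr rfl fun σ _ => by ring
      _ = _ := by rw [e4, hwu ρ]; ring
  have hD0 : 0 ≤ D := by
    refine le_trans (sum_nonneg fun e _ => ?_) hDlow
    split_ifs
    · have := hwt0 e
      positivity
    · exact le_rfl
  rcases (hu0 ρ₀).eq_or_lt with h0 | h0
  · have hz : ∀ ρ, w ρ = 0 := fun ρ => by
      have : u ρ = 0 := le_antisymm (h0 ▸ hmax ρ) (hu0 ρ)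
      rw [hwu, this, mul_zero]
    have hz2 : ∑ ρ, w ρ ^ 2 = 0 := by simp [hz]
    rw [hz2, zero_pow three_ne_zero]
    exact mul_nonneg (by positivity) hD0
  have hcov := nash_cover u wt hwt0 hH ρ₀ h0
  set N : ℝ := ((univ.filter fun ρ => u ρ₀ / 2 < u ρ).card : ℝ) with hN
  have hNL : N * (u ρ₀ / 2) ≤ L := by
    calc N * (u ρ₀ / 2) = ∑ ρ ∈ univ.filter (fun ρ => u ρ₀ / 2 < u ρ), u ρ₀ / 2 := by
          rw [sum_const, nsmul_eq_mul]
      _ ≤ ∑ ρ ∈ univ.filter (fun ρ => u ρ₀ / 2 < u ρ), w ρ * d ρ := by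
          refine sum_le_sum fun ρ hρ => ?_
          have e1 := (mem_filter.1 hρ).2
          have e2 := hdr1 ρ
          have e3 := hu0 ρ
          rw [hwu ρ]
          nlinarith [mul_nonneg e3 (sub_nonneg.2 e2)]
      _ ≤ L := sum_le_sum_of_subset_of_nonneg (filter_subset _ _)
          fun ρ _ _ => mul_nonneg (hw ρ) (hdr ρ).le
  have hN0 : 0 ≤ N := Nat.cast_nonneg _
  have hkey : (u ρ₀ / 2) ^ 3 ≤ L * D := by
    calc (u ρ₀ / 2) ^ 3 = (u ρ₀ / 2) ^ 2 * (u ρ₀ / 2) := by ring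
      _ ≤ (N * D) * (u ρ₀ / 2) :=
          mul_le_mul_of_nonneg_right (hcov.trans (mul_le_mul_of_nonneg_left hDlow hN0)) (by linarith)
      _ = (N * (u ρ₀ / 2)) * D := by ring
      _ ≤ L * D := by gcongr
  calc (∑ ρ, w ρ ^ 2) ^ 3 ≤ (u ρ₀ * L) ^ 3 := by
        gcongr
    _ = 8 * L ^ 3 * (u ρ₀ / 2) ^ 3 := by ring
    _ ≤ 8 * L ^ 3 * (L * D) := by gcongr
    _ = 8 * L ^ 4 * D := by ring

end Pool.Agent.L7h89.RL
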