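import Pool.Agent.L7h85.RL.Stm

/-!
# A recursion

Task S_REC of the project RL of helper85.
-/

set_option autoImplicit false

namespace Pool.Agent.L7h89.RL

open Finset

/-- task S_REC -/
theorem s_REC : Pool.Agent.L7h85.RL.S_REC := by
  intro ε E hε hE hrec
  set K : ℝ := 1 / (E 0 ^ 2 + 1) with hK
  have hK0 : 0 < K := by positivity
  have key : ∀ n : ℕ, E n ^ 2 * (K + 2 * ε * n) ≤ 1 := by
    intro n
    induction n with
    | zero =>
      simp only [Nat.cast_zero, mul_zero, add_zero, hK]
      rw [mul_one_div, div_le_one (by positivity)]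
      linarith
    | succ n ih =>
      push_cast
      have h0 := hE n
      have h1 := hE (n + 1)
      have h2 := hrec n
      rcases h0.eq_or_lt with h | h
      · have : E (n + 1) = 0 := by
          rw [← h] at h2
          apply le_antisymm _ h1
          simpa using h2
        rw [this]; simp
      · set y := E n with hy
        set x := ε * y ^ 2 with hx
        have hx0 : 0 ≤ x := by positivity
        have e1 : E (n + 1) ≤ y * (1 - x) := by
          have : y * (1 - x) = y - ε * y ^ 3 := by rw [hx]; ring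
          linarith
        have hx1 : x ≤ 1 := by
          by_contra hc
          push Not at hc
          have : y * (1 - x) < 0 := mul_neg_of_pos_of_neg h (by linarith)
          linarith
        have e2 : E (n + 1) ^ 2 ≤ (y * (1 - x)) ^ 2 := by gcongr
        calc E (n + 1) ^ 2 * (K + 2 * ε * (n + 1)) ≤ (y * (1 - x)) ^ 2 * (K + 2 * ε * (n + 1)) := by
              gcongr
          _ = (1 - x) ^ 2 * (y ^ 2 * (K + 2 * ε * n) + 2 * x) := by rw [hx]; ring
          _ ≤ (1 - x) ^ 2 * (1 + 2 * x) := by gcongr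
          _ ≤ 1 := by nlinarith [sq_nonneg x]
  set C : ℝ := √(1 / K + 1 / (2 * ε)) with hC
  have hC2 : C ^ 2 = 1 / K + 1 / (2 * ε) := Real.sq_sqrt (by positivity)
  have hC0 : 0 < C := Real.sqrt_pos.2 (by positivity)
  refine ⟨C, hC0, fun n => ?_⟩
  have hn : (0 : ℝ) < √((n : ℝ) + 1) := Real.sqrt_pos.2 (by positivity)
  rw [le_div_iff₀ hn]
  have h1 : (E n * √((n : ℝ) + 1)) ^ 2 ≤ C ^ 2 := by
    rw [mul_pow, Real.sq_sqrt (by positivity)]
    have h2 : (n : ℝ) + 1 ≤ C ^ 2 * (K + 2 * ε * n) := by
      rw [hC2]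
      have e1 : 1 / K * K = 1 := by field_simp
      have e2 : 1 / (2 * ε) * (2 * ε * n) = n := by field_simp
      have e3 : 0 ≤ 1 / K * (2 * ε * n) := by positivity
      have e4 : 0 ≤ 1 / (2 * ε) * K := by positivity
      nlinarith
    calc E n ^ 2 * ((n : ℝ) + 1) ≤ E n ^ 2 * (C ^ 2 * (K + 2 * ε * n)) := by gcongr
      _ = C ^ 2 * (E n ^ 2 * (K + 2 * ε * n)) := by ring
      _ ≤ C ^ 2 * 1 := by gcongr; exact key n
      _ = C ^ 2 := mul_one _
  exact le_of_sq_le_sq h1 hC0.le

end Pool.Agent.L7h89.RL
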