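import Pool.Agent.L7h89.RL.Spl
import Pool.Agent.L7h85.RL.Geo2

/-!
# The splitting of a variety, given a projector

Task S_SPC of the project RL of helper85.
-/

set_option autoImplicit false
set_option linter.unusedVariables false
set_option linter.unusedSectionVars false

open CategoryTheory AlgebraicGeometry CategoryTheory.Limits

universe u v

namespace Pool.Agent.L7h89.RL

open Pool.Agent.H914 Pool.Agent.H447 Pool.Agent.W534 VarClass Obj WeilCohomology Module
open Pool.Agent.Y163 Pool.Agent.L7h85.RL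

variable {k : Type u} [Field k] {𝒱 : VarClass k} {ops : CycleOps 𝒱}
  {W : WeilCohomology.{u, v} ops} {X Y Z : 𝒱.Obj} {p : ℕ} (Φ : FrobSystem W p)

theorem s_SPC (hMU : S_MU W) (σ : W.K →+* ℂ) : S_SPC Φ σ := by
  intro hp hK hRH 𝒮 hG A q hq hr
  have hpar := allPar Φ hp hK σ hRH
  have h12 : A.e * (1 - A.e) = 0 := by rw [mul_sub, mul_one, A.idem, sub_self]
  have h21 : (1 - A.e) * A.e = 0 := by rw [sub_mul, one_mul, A.idem, sub_self]
  have hπx : ∀ x ∈ genU Φ A.Z q, (1 - A.e) x = 0 := by
    intro x hx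
    rw [← hr] at hx
    obtain ⟨y, rfl⟩ := hx
    rw [← Module.End.mul_apply, h21, LinearMap.zero_apply]
  refine ⟨⟨q, hq, hr.le⟩, ?_, ?_, ?_⟩
  · intro C
    rw [hG.h_eq, hG.h_eq, hG.h_eq]
    exact gh_add hMU hpar A.mem (gcompl A).mem A.idem (gcompl A).idem h12 h21 (gone W A.Z) rfl C (by
      simp only [gone, gcompl]
      abel)
  · rw [hG.dim_eq, hG.dim_eq, hG.dim_eq]
    have h := finrank_split A.e A.idem ⊤ (fun _ _ => trivial)
    rw [Submodule.map_top, Submodule.map_top] at h
    have h2 : gdim (gone W A.Z) = finrank W.K (⊤ : Submodule W.K (W.H A.Z)) := by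
      have : LinearMap.range (1 : Module.End W.K (W.H A.Z)) = ⊤ := LinearMap.range_id
      rw [← this]
      rfl
    rw [h2, h]
    rfl
  · intro S _ hS
    rw [hG.h_eq]
    exact gh_zero Φ hMU hpar hq (gcompl A).mem (gcompl A).idem hπx hS

end Pool.Agent.L7h89.RL
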