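import Pool.Agent.L7h89.RL.Tns0
import Pool.Agent.L7h89.RL.Spc
import Pool.Agent.L7h73.RL.Prod

/-!
# Tate classes in the powers of an object on which the Frobenius endomorphism is not semisimple

Task S_TNS of the project RL of helper85.
-/

set_option autoImplicit false
set_option linter.unusedVariables false
set_option linter.unusedSectionVars false

open CategoryTheory AlgebraicGeometry CategoryTheory.Limits TensorProduct

universe u v

namespace Pool.Agent.L7h89.RL

open Pool.Agent.H914 Pool.Agent.H447 Pool.Agent.W534 VarClass Obj WeilCohomology Module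
open Pool.Agent.Y163 Pool.Agent.L7h85.RL

variable {k : Type u} [Field k] {𝒱 : VarClass k} {ops : CycleOps 𝒱}
  {W : WeilCohomology.{u, v} ops} {X Y Z : 𝒱.Obj} {p : ℕ}

/-! ### Ranges of external products -/

/-- The external product of subspaces. -/
noncomputable def jj (e : Module.End W.K (W.H Y)) (f : Module.End W.K (W.H Z)) :
    (LinearMap.range e ⊗[W.K] LinearMap.range f) →ₗ[W.K] W.H (Y.prod Z) :=
  (kappa W Y Z).toLinearMap ∘ₗ
    TensorProduct.map (LinearMap.range e).subtype (LinearMap.range f).subtype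

lemma jj_injective (e : Module.End W.K (W.H Y)) (f : Module.End W.K (W.H Z)) :
    Function.Injective (jj (W := W) e f) := by
  have hinj : Function.Injective
      (TensorProduct.map (LinearMap.range e).subtype (LinearMap.range f).subtype) :=
    TensorProduct.map_injective_of_flat_flat _ _ (Submodule.subtype_injective _)
      (Submodule.subtype_injective _)
  exact (kappa W Y Z).injective.comp hinj

lemma range_jj (e : Module.End W.K (W.H Y)) (f : Module.End W.K (W.H Z)) :
    LinearMap.range (jj (W := W) e f) = LinearMap.range (extOp W e f) := by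
  have h3 : TensorProduct.map e f =
      TensorProduct.map (LinearMap.range e).subtype (LinearMap.range f).subtype ∘ₗ
        TensorProduct.map e.rangeRestrict f.rangeRestrict := by
    rw [← TensorProduct.map_comp]
    rfl
  have hsurj : Function.Surjective (TensorProduct.map e.rangeRestrict f.rangeRestrict) :=
    TensorProduct.map_surjective e.surjective_rangeRestrict f.surjective_rangeRestrict
  have h1 : extOp W e f = jj (W := W) e f ∘ₗ
      TensorProduct.map e.rangeRestrict f.rangeRestrict ∘ₗ (kappa W Y Z).symm.toLinearMap := by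
    rw [extOp, h3]
    rfl
  rw [h1, LinearMap.range_comp_of_range_eq_top]
  rw [LinearMap.range_comp_of_range_eq_top _ (LinearEquiv.range _)]
  exact LinearMap.range_eq_top.2 hsurj

/-- The range of an external product is the tensor product of the ranges. -/
noncomputable def te (e : Module.End W.K (W.H Y)) (f : Module.End W.K (W.H Z)) :
    (LinearMap.range e ⊗[W.K] LinearMap.range f) ≃ₗ[W.K] LinearMap.range (extOp W e f) :=
  (LinearEquiv.ofInjective (jj (W := W) e f) (jj_injective e f)).trans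
    (LinearEquiv.ofEq _ _ (range_jj e f))

lemma te_coe (e : Module.End W.K (W.H Y)) (f : Module.End W.K (W.H Z))
    (x : LinearMap.range e ⊗[W.K] LinearMap.range f) :
    ((te (W := W) e f x : LinearMap.range (extOp W e f)) : W.H (Y.prod Z)) = jj e f x := rfl

lemma jj_map (e : Module.End W.K (W.H Y)) (f : Module.End W.K (W.H Z))
    (g : Module.End W.K (W.H Y)) (h : Module.End W.K (W.H Z)) (hg : g * e = e * g)
    (hh : h * f = f * h) (x : LinearMap.range e ⊗[W.K] LinearMap.range f) :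
    jj (W := W) e f (TensorProduct.map (rs g e hg) (rs h f hh) x) =
      extOp W g h (jj (W := W) e f x) := by
  induction x with
  | zero => simp
  | tmul a b =>
    have h1 : jj (W := W) e f (a ⊗ₜ b) = W.map (fst Y Z) a * W.map (snd Y Z) b := by
      rw [jj, LinearMap.comp_apply, TensorProduct.map_tmul]
      exact kappa_tmul _ _
    have h2 : jj (W := W) e f (TensorProduct.map (rs g e hg) (rs h f hh) (a ⊗ₜ b)) =
        W.map (fst Y Z) (g a) * W.map (snd Y Z) (h b) := by
      rw [TensorProduct.map_tmul, jj, LinearMap.comp_apply, TensorProduct.map_tmul]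
      exact kappa_tmul _ _
    rw [h1, h2, extOp_tmul]
  | add a b ha hb => rw [map_add, map_add, map_add, map_add, ha, hb]

/-! ### Powers -/

/-- The powers of an object. -/
noncomputable def gp (A : GOb W) : ℕ → GOb W
  | 0 => A
  | n + 1 => gten A (gp A n)

lemma pw_eq {𝒮 : Sys (GOb W)} (hG : IsGeo 𝒮) (A : GOb W) (n : ℕ) : 𝒮.pw A n = gp A n := by
  induction n with
  | zero => rfl
  | succ n ih =>
    change 𝒮.ten A (𝒮.pw A n) = gten A (gp A n)
    rw [hG.ten_eq, ih]

lemma wq_eq {𝒮 : Sys (GOb W)} (hG : IsGeo 𝒮) (A : GOb W) (n : ℕ) :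
    𝒮.wq A n = gten (gp A n) (gdual (gp A n)) := by
  rw [Sys.wq, hG.ten_eq, hG.dual_eq, pw_eq hG]

lemma gp_dim (A : GOb W) (n : ℕ) : (gp A n).Z.dim = (n + 1) * A.Z.dim := by
  induction n with
  | zero => simp [gp]
  | succ n ih =>
    change (A.Z.prod (gp A n).Z).dim = _
    rw [dim_prod, ih]
    ring

lemma gdim_gp (A : GOb W) (n : ℕ) : gdim (gp A n) = gdim A ^ (n + 1) := by
  induction n with
  | zero => simp [gp]
  | succ n ih =>
    change finrank W.K (LinearMap.range (extOp W A.e (gp A n).e)) = _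
    rw [finrank_range_extOp, pow_succ, ← ih, mul_comm]
    rfl

/-- The powers of an operator. -/
noncomputable def uo (A : GOb W) (u : Module.End W.K (W.H A.Z)) :
    ∀ n, Module.End W.K (W.H (gp A n).Z)
  | 0 => u
  | n + 1 => extOp W u (uo A u n)

lemma uo_comm (A : GOb W) {u : Module.End W.K (W.H A.Z)} (hu : u * A.e = A.e * u) (n : ℕ) :
    uo A u n * (gp A n).e = (gp A n).e * uo A u n := by
  induction n with
  | zero => exact hu
  | succ n ih =>
    change extOp W u (uo A u n) * extOp W A.e (gp A n).e =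
      extOp W A.e (gp A n).e * extOp W u (uo A u n)
    rw [extOp_mul, extOp_mul, hu, ih]

lemma extOp_pow (f : Module.End W.K (W.H Y)) (g : Module.End W.K (W.H Z)) (n : ℕ) :
    extOp W f g ^ n = extOp W (f ^ n) (g ^ n) := by
  induction n with
  | zero => rw [pow_zero, pow_zero, pow_zero, extOp_one]
  | succ n ih => rw [pow_succ, pow_succ, pow_succ, ih, extOp_mul]

variable (Φ : FrobSystem W p)

lemma card_eq {Y Z : 𝒱.Obj} {s t : ℕ} (h : Φ.e Y * s = Φ.e Z * t) :
    card Φ Y s = card Φ Z t := by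
  rw [card, card, h]

/-- The Frobenius endomorphisms of the powers. -/
lemma frob_uo (A : GOb W) {q s₀ : ℕ} (hs₀ : 0 < s₀) {u : Module.End W.K (W.H A.Z)}
    (hu : frob Φ A.Z s₀ = ((card Φ A.Z s₀ : W.K) ^ q) • u) (n : ℕ) :
    ∃ s m : ℕ, 0 < s ∧ 0 < m ∧ Φ.e (gp A n).Z * s = Φ.e A.Z * (s₀ * m) ∧
      ∀ t, frob Φ (gp A n).Z (s * t) =
        ((card Φ (gp A n).Z (s * t) : W.K) ^ ((n + 1) * q)) • uo A u n ^ (m * t) := by
  have hbase : ∀ t, frob Φ A.Z (s₀ * t) = ((card Φ A.Z (s₀ * t) : W.K) ^ q) • u ^ t := by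
    intro t
    rw [frob_mul_eq, hu, smul_pow, card_mul_eq, Nat.cast_pow, pow_right_comm]
  induction n with
  | zero =>
    refine ⟨s₀, 1, hs₀, one_pos, by rw [mul_one]; rfl, fun t => ?_⟩
    rw [zero_add, one_mul, one_mul]
    exact hbase t
  | succ n ih =>
    obtain ⟨s, m, hs, hm, hsm, h⟩ := ih
    obtain ⟨s1, s2, s3, h1, h2, h3, e12, e13, hfr⟩ :=
      Pool.Agent.L7h73.RL.frob_prod (W := W) Φ A.Z (gp A n).Z
    refine ⟨s1 * (s₀ * s), s2 * s, by positivity, by positivity, ?_, fun t => ?_⟩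
    · change Φ.e (A.Z.prod (gp A n).Z) * _ = _
      calc Φ.e (A.Z.prod (gp A n).Z) * (s1 * (s₀ * s))
          = (s1 * Φ.e (A.Z.prod (gp A n).Z)) * (s₀ * s) := by ring
        _ = Φ.e A.Z * (s₀ * (s2 * s)) := by rw [e12]; ring
    · change frob Φ (A.Z.prod (gp A n).Z) _ = _
      have hexp : s2 * s = s3 * (s₀ * m) := by
        have he := Φ.e_pos A.Z
        have h4 : Φ.e A.Z * (s2 * s) = Φ.e A.Z * (s3 * (s₀ * m)) := by
          calc Φ.e A.Z * (s2 * s) = (s2 * Φ.e A.Z) * s := by ring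
            _ = (s3 * Φ.e (gp A n).Z) * s := by rw [← e12, e13]
            _ = s3 * (Φ.e (gp A n).Z * s) := by ring
            _ = Φ.e A.Z * (s3 * (s₀ * m)) := by rw [hsm]; ring
        exact Nat.eq_of_mul_eq_mul_left he h4
      have c1 : card Φ A.Z (s2 * (s₀ * s * t)) =
          card Φ (A.Z.prod (gp A n).Z) (s1 * (s₀ * s * t)) := by
        apply card_eq
        calc Φ.e A.Z * (s2 * (s₀ * s * t)) = (s2 * Φ.e A.Z) * (s₀ * s * t) := by ring
          _ = _ := by rw [← e12]; ring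
      have c2 : card Φ (gp A n).Z (s3 * (s₀ * s * t)) =
          card Φ (A.Z.prod (gp A n).Z) (s1 * (s₀ * s * t)) := by
        apply card_eq
        calc Φ.e (gp A n).Z * (s3 * (s₀ * s * t)) = (s3 * Φ.e (gp A n).Z) * (s₀ * s * t) := by ring
          _ = _ := by rw [← e13]; ring
      have f1 : frob Φ A.Z (s2 * (s₀ * s * t)) =
          ((card Φ A.Z (s2 * (s₀ * s * t)) : W.K) ^ q) • u ^ (s2 * s * t) := by
        have := hbase (s2 * s * t)
        rwa [show s₀ * (s2 * s * t) = s2 * (s₀ * s * t) by ring] at this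
      have f2 : frob Φ (gp A n).Z (s3 * (s₀ * s * t)) =
          ((card Φ (gp A n).Z (s3 * (s₀ * s * t)) : W.K) ^ ((n + 1) * q)) •
            uo A u n ^ (s2 * s * t) := by
        have := h (s3 * s₀ * t)
        rw [show s * (s3 * s₀ * t) = s3 * (s₀ * s * t) by ring,
          show m * (s3 * s₀ * t) = s3 * (s₀ * m) * t by ring, ← hexp] at this
        exact this
      have e1 : s1 * (s₀ * s) * t = s1 * (s₀ * s * t) := by ring
      rw [e1, hfr, f1, f2, extOp_smul_left, extOp_smul_right, smul_smul, c1, c2, ← extOp_pow,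
        ← pow_add, show q + (n + 1) * q = (n + 1 + 1) * q by ring]
      rfl

/-! ### Levels -/

/-- The Tate classes of a given level. -/
noncomputable def eigT (Z : 𝒱.Obj) (j s : ℕ) : Submodule W.K (W.H Z) :=
  LinearMap.ker (frob Φ Z s - ((card Φ Z s : W.K) ^ j) • (1 : Module.End W.K (W.H Z))) ⊓
    W.gr Z (2 * j)

lemma mem_eigT {Z : 𝒱.Obj} {j s : ℕ} {x : W.H Z} : x ∈ eigT Φ Z j s ↔
    frob Φ Z s x = ((card Φ Z s : W.K) ^ j) • x ∧ x ∈ W.gr Z (2 * j) := by
  rw [eigT, Submodule.mem_inf, LinearMap.mem_ker, LinearMap.sub_apply, LinearMap.smul_apply,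
    Module.End.one_apply, sub_eq_zero]

lemma tsub_level (Z : 𝒱.Obj) (j : ℕ) : ∃ T, 0 < T ∧ ∀ c ∈ tsub Φ Z j, ∀ r,
    frob Φ Z (T * r) c = ((card Φ Z (T * r) : W.K) ^ j) • c := by
  obtain ⟨T, hT, h⟩ := exists_stab (fun s => eigT Φ Z j s) (fun s r _ x hx => by
    obtain ⟨h1, h2⟩ := (mem_eigT Φ).1 hx
    exact (mem_eigT Φ).2 ⟨span_eig_mul Φ h1 r, h2⟩)
  have hle : tsub Φ Z j ≤ eigT Φ Z j T := by
    rw [tsub, Submodule.span_le]
    rintro c ⟨hc, s, hs, h1⟩
    apply h s hs
    refine (mem_eigT Φ).2 ⟨?_, hc⟩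
    rw [card_pow, frob_apply]
    exact h1
  exact ⟨T, hT, fun c hc r => span_eig_mul Φ ((mem_eigT Φ).1 (hle hc)).1 r⟩

/-- The normalised Frobenius endomorphism. -/
noncomputable def fn (Z : 𝒱.Obj) (q s : ℕ) : Module.End W.K (W.H Z) :=
  ((card Φ Z s : W.K) ^ q)⁻¹ • frob Φ Z s

lemma frob_eq_fn (Z : 𝒱.Obj) (q s : ℕ) :
    frob Φ Z s = ((card Φ Z s : W.K) ^ q) • fn Φ Z q s := by
  rw [fn, smul_smul, mul_inv_cancel₀ (pow_ne_zero _ (card_ne Φ s)), one_smul]

lemma fn_comm {Z : 𝒱.Obj} {q s : ℕ} {e : Module.End W.K (W.H Z)}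
    (h : frob Φ Z s * e = e * frob Φ Z s) : fn Φ Z q s * e = e * fn Φ Z q s := by
  rw [fn, smul_mul_assoc, mul_smul_comm, h]

/-- The normalised Frobenius endomorphism is unipotent on the generalised Tate classes. -/
lemma fn_unip {Z : 𝒱.Obj} {q s : ℕ} (hst : genTate Φ Z s q = genU Φ Z q)
    {e : Module.End W.K (W.H Z)} (he : LinearMap.range e ≤ genU Φ Z q)
    (hc : fn Φ Z q s * e = e * fn Φ Z q s) : IsNilpotent (rs (fn Φ Z q s) e hc - 1) := by
  set c := (card Φ Z s : W.K) ^ q with hcc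
  have hc0 : c ≠ 0 := pow_ne_zero _ (card_ne Φ s)
  refine ⟨finrank W.K (W.H Z), ?_⟩
  apply LinearMap.ext
  intro x
  apply Subtype.ext
  rw [rs_sub_pow_coe]
  have h1 : fn Φ Z q s - 1 = c⁻¹ • (frob Φ Z s - c • 1) := by
    rw [smul_sub, smul_smul, inv_mul_cancel₀ hc0, one_smul]
    rfl
  have h2 : (x : W.H Z) ∈ genTate Φ Z s q := by
    rw [hst]
    exact he x.2
  have h3 : (x : W.H Z) ∈ (frob Φ Z s).maxGenEigenspace c := h2.1
  rw [Module.End.maxGenEigenspace_eq_genEigenspace_finrank, Module.End.mem_genEigenspace_nat,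
    LinearMap.mem_ker] at h3
  rw [h1, smul_pow, LinearMap.smul_apply]
  have h4 : ((frob Φ Z s - c • (1 : Module.End W.K (W.H Z))) ^ finrank W.K (W.H Z)) (x : W.H Z) =
      0 := h3
  rw [h4, smul_zero]
  rfl

lemma rs_pow (f e : Module.End W.K (W.H Z)) (h : f * e = e * f) (n : ℕ)
    (h' : f ^ n * e = e * f ^ n) : rs (f ^ n) e h' = rs f e h ^ n := by
  apply LinearMap.ext
  intro x
  apply Subtype.ext
  rw [rs_pow_coe]
  rfl

lemma rs_congr {f g e : Module.End W.K (W.H Z)} (h : f * e = e * f) (hfg : f = g)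
    (h' : g * e = e * g) : rs f e h = rs g e h' := by
  subst hfg
  rfl

/-- The tensor product of two endomorphisms, as an endomorphism. -/
noncomputable abbrev mp {K P Q : Type v} [Field K] [AddCommGroup P] [Module K P] [AddCommGroup Q]
    [Module K Q] (f : Module.End K P) (g : Module.End K Q) : Module.End K (P ⊗[K] Q) :=
  TensorProduct.map f g

/-- The difference with the identity. -/
noncomputable abbrev um {K P : Type v} [Field K] [AddCommGroup P] [Module K P]
    (f : Module.End K P) : Module.End K P := f - 1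

/-- The fixed vectors. -/
noncomputable abbrev kf {K P : Type v} [Field K] [AddCommGroup P] [Module K P]
    (f : Module.End K P) : Submodule K P := LinearMap.ker (f - 1)

lemma mem_kf {K P : Type v} [Field K] [AddCommGroup P] [Module K P] {f : Module.End K P} {x : P} :
    x ∈ kf f ↔ f x = x := by
  rw [kf, LinearMap.mem_ker, LinearMap.sub_apply, Module.End.one_apply, sub_eq_zero]

/-- The number of Tate classes in an external product. -/
lemma finrank_tsub_le (Z : 𝒱.Obj) {Q : ℕ} (e e' : Module.End W.K (W.H Z))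
    (he : e ∈ KOp W Z Z 0) (he' : e' ∈ KOp W Z Z 0) (hFRC : S_FRC Φ)
    (hKTP : S_KTP.{v, v}) (he'U : LinearMap.range e' ≤ genU Φ Z Q) (t₀ : ℕ) (ht₀ : 0 < t₀) :
    ∃ L, 0 < L ∧ t₀ ∣ L ∧ ∃ hc : fn Φ Z Q L * e = e * fn Φ Z Q L,
      finrank W.K (tsub Φ (Z.prod Z) (2 * Q) ⊓ LinearMap.range (extOp W e e') :
        Submodule W.K (W.H (Z.prod Z))) ≤
      finrank W.K (LinearMap.range e') *
        finrank W.K (kf (rs (fn Φ Z Q L) e hc)) := by
  obtain ⟨sc, hsc, hcomm⟩ := hFRC Z
  obtain ⟨ts, hts, hstab⟩ : ∃ t, 0 < t ∧ ∀ s, 0 < s → t ∣ s → genTate Φ Z s Q = genU Φ Z Q :=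
    ⟨_, (exists_stable Φ Z Q).choose_spec.1, fun s hs h => genU_eq Φ hs h⟩
  obtain ⟨T, hT, htate⟩ := tsub_level Φ (Z.prod Z) (2 * Q)
  obtain ⟨s1, s2, s3, h1, h2, h3, e12, e13, hfr⟩ :=
    Pool.Agent.L7h73.RL.frob_prod (W := W) Φ Z Z
  have e23 : s2 = s3 := Nat.eq_of_mul_eq_mul_right (Φ.e_pos Z) (by rw [← e12, e13])
  subst e23
  set t := sc * (ts * (T * s2)) with ht
  have htpos : 0 < t := by positivity
  set L := s2 * (t₀ * (sc * (ts * T))) with hL
  have hLt : L = t₀ * t := by rw [hL, ht]; ring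
  have hLpos : 0 < L := by positivity
  have hLc : ∀ f ∈ KOp W Z Z 0, frob Φ Z L * f = f * frob Φ Z L := by
    intro f hf
    have := hcomm (s2 * (t₀ * (ts * T))) f hf
    rwa [show sc * (s2 * (t₀ * (ts * T))) = L by rw [hL]; ring] at this
  have hLs : genTate Φ Z L Q = genU Φ Z Q := hstab L hLpos ⟨s2 * (t₀ * (sc * T)), by rw [hL]; ring⟩
  have hce : fn Φ Z Q L * e = e * fn Φ Z Q L := fn_comm Φ (hLc e he)
  have hce' : fn Φ Z Q L * e' = e' * fn Φ Z Q L := fn_comm Φ (hLc e' he')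
  -- the level of the product
  have hfrL : frob Φ (Z.prod Z) (s1 * (t₀ * (sc * (ts * T)))) =
      extOp W (frob Φ Z L) (frob Φ Z L) := hfr _
  have hcardL : card Φ (Z.prod Z) (s1 * (t₀ * (sc * (ts * T)))) = card Φ Z L := by
    apply card_eq
    calc Φ.e (Z.prod Z) * (s1 * (t₀ * (sc * (ts * T))))
        = (s1 * Φ.e (Z.prod Z)) * (t₀ * (sc * (ts * T))) := by ring
      _ = Φ.e Z * L := by rw [e12, hL]; ring
  have hfix : ∀ x ∈ tsub Φ (Z.prod Z) (2 * Q), extOp W (fn Φ Z Q L) (fn Φ Z Q L) x = x := by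
    intro x hx
    have g1 := htate x hx (s1 * (t₀ * (sc * ts)))
    rw [show T * (s1 * (t₀ * (sc * ts))) = s1 * (t₀ * (sc * (ts * T))) by ring, hfrL, hcardL,
      frob_eq_fn Φ Z Q L, extOp_smul_left, extOp_smul_right, smul_smul, ← pow_add, ← two_mul,
      LinearMap.smul_apply] at g1
    exact smul_right_injective _ (pow_ne_zero (2 * Q) (card_ne Φ L)) g1
  have hbound : finrank W.K (tsub Φ (Z.prod Z) (2 * Q) ⊓ LinearMap.range (extOp W e e') :
      Submodule W.K (W.H (Z.prod Z))) ≤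
      finrank W.K (kf (mp (rs (fn Φ Z Q L) e hce) (rs (fn Φ Z Q L) e' hce'))) := by
    have hsub : (tsub Φ (Z.prod Z) (2 * Q) ⊓ LinearMap.range (extOp W e e') :
        Submodule W.K (W.H (Z.prod Z))) ≤
        (kf (mp (rs (fn Φ Z Q L) e hce) (rs (fn Φ Z Q L) e' hce'))).map
          (jj (W := W) e e') := by
      rintro x ⟨hx1, hx2⟩
      rw [← range_jj] at hx2
      obtain ⟨y, rfl⟩ := hx2
      refine ⟨y, mem_kf.2 ?_, rfl⟩
      apply jj_injective e e'
      rw [jj_map]
      exact hfix _ hx1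
    refine (Submodule.finrank_mono hsub).trans ?_
    exact (LinearEquiv.finrank_eq (Submodule.equivMapOfInjective _ (jj_injective e e') _)).ge
  refine ⟨L, hLpos, ⟨t, hLt⟩, hce, hbound.trans ?_⟩
  rw [kf, finrank_ker_comm]
  exact hKTP W.K (LinearMap.range e') (LinearMap.range e) (rs (fn Φ Z Q L) e' hce')
    (rs (fn Φ Z Q L) e hce) (fn_unip Φ hLs he'U hce')

/-- task S_TNS -/
theorem s_TNS (hKTP : S_KTP.{v, v}) (hKER : S_KER.{v, v}) (hFRC : S_FRC Φ) (σ : W.K →+* ℂ) :
    S_TNS Φ σ := by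
  intro hp hK hRH 𝒮 hG A hA hlt
  have hst : 𝒮.IsStable (GT Φ) :=
    Pool.Agent.L7h73.RL.s_STA Φ σ (s_PRJ Φ σ) hp hK hRH 𝒮 hG
  obtain ⟨q, hq, hAr⟩ := id hA
  -- the level of the object
  obtain ⟨sc, hsc, hcomm⟩ := hFRC A.Z
  obtain ⟨ts, hts, hstab⟩ : ∃ t, 0 < t ∧ ∀ s, 0 < s → t ∣ s →
      genTate Φ A.Z s q = genU Φ A.Z q :=
    ⟨_, (exists_stable Φ A.Z q).choose_spec.1, fun s hs h => genU_eq Φ hs h⟩
  set s₀ := sc * ts with hs₀
  have hs₀pos : 0 < s₀ := by positivity
  have hs₀st : genTate Φ A.Z s₀ q = genU Φ A.Z q := hstab _ hs₀pos ⟨sc, mul_comm _ _⟩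
  set u := fn Φ A.Z q s₀ with hu
  have huc : u * A.e = A.e * u := fn_comm Φ (hcomm ts A.e A.mem)
  have huf : frob Φ A.Z s₀ = ((card Φ A.Z s₀ : W.K) ^ q) • u := frob_eq_fn Φ A.Z q s₀
  have hunil : IsNilpotent (rs u A.e huc - 1) := fn_unip Φ hs₀st hAr huc
  have hune : rs u A.e huc ≠ 1 := by
    intro h1
    have h2 : LinearMap.range A.e ≤ tsub Φ A.Z (A.Z.dim / 2) := by
      intro x hx
      apply Submodule.subset_span
      have hd : A.Z.dim / 2 = q := by omega
      rw [hd]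
      have h3 : u x = x := by
        have := congrArg (fun f => ((f ⟨x, hx⟩ : LinearMap.range A.e) : W.H A.Z)) h1
        exact this
      refine ⟨((mem_genTate Φ).1 (hs₀st ▸ hAr hx)).2, s₀, hs₀pos, ?_⟩
      rw [← frob_apply, ← card_pow, huf, LinearMap.smul_apply, h3]
    have h4 : gtau Φ A = gdim A := by
      rw [gtau, inf_of_le_right h2, gdim]
    omega
  -- the powers
  have hUc : ∀ n, uo A u n * (gp A n).e = (gp A n).e * uo A u n := uo_comm A huc
  have hcompat : ∀ n, rs (uo A u (n + 1)) (gp A (n + 1)).e (hUc (n + 1)) ∘ₗ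
      (te (W := W) A.e (gp A n).e).toLinearMap =
      (te (W := W) A.e (gp A n).e).toLinearMap ∘ₗ
        TensorProduct.map (rs u A.e huc) (rs (uo A u n) (gp A n).e (hUc n)) := by
    intro n
    apply LinearMap.ext
    intro x
    apply Subtype.ext
    exact (jj_map A.e (gp A n).e u (uo A u n) huc (hUc n) x).symm
  obtain ⟨C, hC, hbound⟩ := hKER W.K (fun n => LinearMap.range (gp A n).e)
    (fun n => te (W := W) A.e (gp A n).e) (fun n => rs (uo A u n) (gp A n).e (hUc n))
    hcompat hunil hune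
  have hnil : ∀ n, IsNilpotent (rs (uo A u n) (gp A n).e (hUc n) - 1) := by
    intro n
    induction n with
    | zero => exact hunil
    | succ n ih => exact nil_conj (te (W := W) A.e (gp A n).e) (hcompat n) (nil_map hunil ih)
  refine ⟨C, hC, fun n => ?_⟩
  -- the objects are in the class
  have hGT : ∀ n, GT Φ (gp A n) := by
    intro n
    rw [← pw_eq hG]
    induction n with
    | zero => exact hA
    | succ n ih => exact hst.ten hA ih
  have hGT' : GT Φ (gdual (gp A n)) := by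
    rw [← hG.dual_eq]
    exact hst.dual (hGT n)
  have hQ : (gp A n).Z.dim = 2 * ((n + 1) * q) := by rw [gp_dim, hq]; ring
  have he'U : LinearMap.range (adj (gp A n).e) ≤ genU Φ (gp A n).Z ((n + 1) * q) := by
    obtain ⟨Q, hQ1, hQ2⟩ := hGT'
    have : Q = (n + 1) * q := by
      have h1 : (gp A n).Z.dim = 2 * Q := hQ1
      omega
    rw [← this]
    exact hQ2
  obtain ⟨s, m, hs, hm, hsm, hfrob⟩ := frob_uo Φ A hs₀pos huf n
  obtain ⟨L, hL, ⟨t, rfl⟩, hc, hfin⟩ := finrank_tsub_le Φ (gp A n).Z (gp A n).e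
    (adj (gp A n).e) (gp A n).mem (adj_mem (gp A n).mem) hFRC hKTP he'U s hs
  have hfn : fn Φ (gp A n).Z ((n + 1) * q) (s * t) = uo A u n ^ (m * t) := by
    rw [fn, hfrob, smul_smul, inv_mul_cancel₀ (pow_ne_zero _ (card_ne Φ _)), one_smul]
  have htpos : 0 < t := Nat.pos_of_mul_pos_left hL |> fun _ => by
    rcases Nat.eq_zero_or_pos t with h | h
    · rw [h, mul_zero] at hL; omega
    · exact h
  have hker : kf (rs (fn Φ (gp A n).Z ((n + 1) * q) (s * t)) (gp A n).e hc) ≤
      kf (rs (uo A u n) (gp A n).e (hUc n)) := by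
    intro x hx
    rw [mem_kf] at hx ⊢
    apply fix_of_pow (hnil n) (M := m * t) (by positivity)
    apply Subtype.ext
    rw [rs_pow_coe, ← hfn]
    exact congrArg Subtype.val hx
  have h1 : gtau Φ (𝒮.wq A n) ≤ gdim A ^ (n + 1) *
      finrank W.K (kf (rs (uo A u n) (gp A n).e (hUc n))) := by
    rw [wq_eq hG]
    have h2 : gtau Φ (gten (gp A n) (gdual (gp A n))) =
        finrank W.K (tsub Φ ((gp A n).Z.prod (gp A n).Z) (2 * ((n + 1) * q)) ⊓
          LinearMap.range (extOp W (gp A n).e (adj (gp A n).e)) :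
          Submodule W.K (W.H ((gp A n).Z.prod (gp A n).Z))) := by
      have h3 : ((gp A n).Z.prod (gp A n).Z).dim / 2 = 2 * ((n + 1) * q) := by
        rw [dim_prod, hQ]; omega
      rw [← h3]
      rfl
    rw [h2]
    refine hfin.trans ?_
    rw [finrank_range_adj]
    have h4 : finrank W.K (LinearMap.range (gp A n).e) = gdim A ^ (n + 1) := gdim_gp A n
    rw [h4]
    exact Nat.mul_le_mul le_rfl (Submodule.finrank_mono hker)
  have h5 := hbound n
  have h6 : (gtau Φ (𝒮.wq A n) : ℝ) ≤ (gdim A : ℝ) ^ (n + 1) *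
      (finrank W.K (kf (rs (uo A u n) (gp A n).e (hUc n))) : ℝ) := by exact_mod_cast h1
  refine h6.trans ?_
  have h7 : (finrank W.K (kf (rs (uo A u n) (gp A n).e (hUc n))) : ℝ) ≤
      C * (gdim A : ℝ) ^ (n + 1) / √(n + 1) := h5
  calc (gdim A : ℝ) ^ (n + 1) * (finrank W.K (kf (rs (uo A u n) (gp A n).e (hUc n))) : ℝ)
      ≤ (gdim A : ℝ) ^ (n + 1) * (C * (gdim A : ℝ) ^ (n + 1) / √(n + 1)) := by gcongr
    _ = C * (gdim A : ℝ) ^ (2 * (n + 1)) / √(n + 1) := by
        rw [two_mul, pow_add]; ring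

end Pool.Agent.L7h89.RL
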