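import Mathlib

/-!
# Unipotent operators and tensor products
-/

set_option autoImplicit false

open TensorProduct

namespace Pool.Agent.L7h89.RL

section

variable {K : Type*} [Field K] {V V' : Type*} [AddCommGroup V] [Module K V] [AddCommGroup V']
  [Module K V']

/-- The tensor product of two unipotent operators is unipotent. -/
lemma nil_map {u : Module.End K V} {v : Module.End K V'} (hu : IsNilpotent (u - 1))
    (hv : IsNilpotent (v - 1)) :
    IsNilpotent ((TensorProduct.map u v : Module.End K (V ⊗[K] V')) - 1) := by
  have e1 : (TensorProduct.map u v : Module.End K (V ⊗[K] V')) - 1 =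
      TensorProduct.map (u - 1) v + TensorProduct.map 1 (v - 1) := by
    have h1 : TensorProduct.map (u - 1) v = TensorProduct.map u v - TensorProduct.map 1 v := by
      rw [eq_sub_iff_add_eq, ← TensorProduct.map_add_left, sub_add_cancel]
    have h2 : TensorProduct.map (1 : Module.End K V) (v - 1) =
        TensorProduct.map 1 v - TensorProduct.map 1 (1 : Module.End K V') := by
      rw [eq_sub_iff_add_eq, ← TensorProduct.map_add_right, sub_add_cancel]
    have h3 : (TensorProduct.map (1 : Module.End K V) (1 : Module.End K V') :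
        Module.End K (V ⊗[K] V')) = 1 := TensorProduct.map_id
    rw [h1, h2, h3]
    abel
  rw [e1]
  refine Commute.isNilpotent_add ?_ ?_ ?_
  · have h : v * (v - 1) = (v - 1) * v := by rw [mul_sub, sub_mul, mul_one, one_mul]
    rw [commute_iff_eq, ← TensorProduct.map_mul, ← TensorProduct.map_mul, h, one_mul, mul_one]
  · obtain ⟨n, hn⟩ := hu
    refine ⟨n, ?_⟩
    rw [TensorProduct.map_pow, hn, TensorProduct.map_zero_left]
  · obtain ⟨n, hn⟩ := hv
    refine ⟨n, ?_⟩
    rw [TensorProduct.map_pow, hn, TensorProduct.map_zero_right]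

/-- Conjugation. -/
lemma nil_conj (E : V ≃ₗ[K] V') {f : Module.End K V} {g : Module.End K V'}
    (h : g ∘ₗ E.toLinearMap = E.toLinearMap ∘ₗ f) (hf : IsNilpotent (f - 1)) :
    IsNilpotent (g - 1) := by
  obtain ⟨N, hN⟩ := hf
  refine ⟨N, ?_⟩
  have h0 : ∀ x, g (E x) = E (f x) := fun x => congrArg (fun F => F x) h
  have h1 : ∀ (N : ℕ) (x : V), ((g - 1) ^ N) (E x) = E (((f - 1) ^ N) x) := by
    intro N
    induction N with
    | zero => intro x; rfl
    | succ N ih =>
      intro x
      have h2 : (g - 1) (E x) = E ((f - 1) x) := by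
        rw [LinearMap.sub_apply, LinearMap.sub_apply, Module.End.one_apply, Module.End.one_apply,
          h0, map_sub]
      rw [pow_succ, pow_succ, Module.End.mul_apply, Module.End.mul_apply, ← ih, h2]
  apply LinearMap.ext
  intro y
  obtain ⟨x, rfl⟩ := E.surjective y
  rw [h1, hN, LinearMap.zero_apply, map_zero, LinearMap.zero_apply]

/-- Fixed vectors of a power of a unipotent operator. -/
lemma fix_of_pow [CharZero K] {u : Module.End K V} (hu : IsNilpotent (u - 1)) {M : ℕ} (hM : 0 < M)
    {x : V} (hx : (u ^ M) x = x) : u x = x := by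
  set N := u - 1 with hN
  have huN : u = 1 + N := by rw [hN]; abel
  -- the case of order two
  have key : ∀ y : V, (u ^ M) y = y → N (N y) = 0 → N y = 0 := by
    intro y hy hNN
    have h1 : ∀ j : ℕ, (u ^ j) y = y + (j : K) • N y := by
      intro j
      induction j with
      | zero => simp
      | succ j ih =>
        rw [pow_succ', Module.End.mul_apply, ih, huN, LinearMap.add_apply, Module.End.one_apply,
          map_add, map_smul, hNN, smul_zero, add_zero]
        push_cast
        rw [add_smul, one_smul]
        abel
    have h2 := h1 M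
    rw [hy] at h2
    have h3 : (M : K) • N y = 0 := by
      rw [eq_comm, add_eq_left] at h2
      exact h2
    exact (smul_eq_zero.1 h3).resolve_left (Nat.cast_ne_zero.2 hM.ne')
  have hcomm : ∀ y, (u ^ M) (N y) = N ((u ^ M) y) := by
    intro y
    have hc : Commute (u ^ M) N := ((Commute.refl u).sub_right (Commute.one_right u)).pow_left M
    rw [← Module.End.mul_apply, hc.eq, Module.End.mul_apply]
  obtain ⟨n, hn⟩ := hu
  have hall : ∀ (n : ℕ) (y : V), (u ^ M) y = y → (N ^ n) y = 0 → N y = 0 := by
    intro n
    induction n with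
    | zero =>
      intro y _ h0
      rw [pow_zero, Module.End.one_apply] at h0
      rw [h0, map_zero]
    | succ n ih =>
      intro y hy h0
      apply key y hy
      apply ih (N y)
      · rw [hcomm, hy]
      · rw [← Module.End.mul_apply, ← pow_succ]
        exact h0
  have h1 := hall n x hx (by rw [hn, LinearMap.zero_apply])
  rw [huN, LinearMap.add_apply, Module.End.one_apply, h1, add_zero]

/-- Exchange of the factors. -/
lemma finrank_ker_comm (f : Module.End K V) (g : Module.End K V') :
    Module.finrank K (LinearMap.ker ((TensorProduct.map f g : Module.End K (V ⊗[K] V')) - 1)) =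
      Module.finrank K
        (LinearMap.ker ((TensorProduct.map g f : Module.End K (V' ⊗[K] V)) - 1)) := by
  set c := TensorProduct.comm K V V' with hc
  have h1 : ∀ x, c (TensorProduct.map f g x) = TensorProduct.map g f (c x) := by
    intro x
    induction x with
    | zero => simp
    | tmul a b => rfl
    | add a b ha hb => rw [map_add, map_add, ha, hb, map_add, map_add]
  have h2 : (LinearMap.ker ((TensorProduct.map f g : Module.End K (V ⊗[K] V')) - 1)).map
      (c : V ⊗[K] V' →ₗ[K] V' ⊗[K] V) =
      LinearMap.ker ((TensorProduct.map g f : Module.End K (V' ⊗[K] V)) - 1) := by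
    ext y
    rw [Submodule.mem_map, LinearMap.mem_ker, LinearMap.sub_apply, Module.End.one_apply,
      sub_eq_zero]
    constructor
    · rintro ⟨x, hx, rfl⟩
      rw [LinearMap.mem_ker, LinearMap.sub_apply, Module.End.one_apply, sub_eq_zero] at hx
      rw [LinearEquiv.coe_coe, ← h1, hx]
    · intro hy
      refine ⟨c.symm y, ?_, by rw [LinearEquiv.coe_coe, LinearEquiv.apply_symm_apply]⟩
      rw [LinearMap.mem_ker, LinearMap.sub_apply, Module.End.one_apply, sub_eq_zero]
      apply c.injective
      rw [h1, LinearEquiv.apply_symm_apply, hy]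
  rw [← h2]
  exact (LinearEquiv.finrank_map_eq c _).symm

/-- The restriction of an operator to the range of a commuting operator. -/
noncomputable def rs (f e : Module.End K V) (h : f * e = e * f) :
    Module.End K (LinearMap.range e) :=
  f.restrict (fun x hx => by
    obtain ⟨y, rfl⟩ := hx
    exact ⟨f y, by rw [← Module.End.mul_apply, ← h, Module.End.mul_apply]⟩)

lemma rs_coe (f e : Module.End K V) (h : f * e = e * f) (x : LinearMap.range e) :
    ((rs f e h x : LinearMap.range e) : V) = f x := rfl

lemma rs_pow_coe (f e : Module.End K V) (h : f * e = e * f) (n : ℕ) (x : LinearMap.range e) :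
    (((rs f e h ^ n) x : LinearMap.range e) : V) = (f ^ n) x := by
  induction n with
  | zero => rfl
  | succ n ih => rw [pow_succ', pow_succ', Module.End.mul_apply, Module.End.mul_apply, rs_coe, ih]

lemma rs_sub_pow_coe (f e : Module.End K V) (h : f * e = e * f) (n : ℕ) (x : LinearMap.range e) :
    ((((rs f e h - 1) ^ n) x : LinearMap.range e) : V) = ((f - 1) ^ n) x := by
  induction n with
  | zero => rfl
  | succ n ih =>
    rw [pow_succ', pow_succ', Module.End.mul_apply, Module.End.mul_apply, ← ih]
    rfl

/-- A stabilising family of subspaces. -/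
lemma exists_stab [Module.Finite K V] (E : ℕ → Submodule K V)
    (hE : ∀ s r, 0 < r → E s ≤ E (s * r)) : ∃ T, 0 < T ∧ ∀ s, 0 < s → E s ≤ E T := by
  obtain ⟨t, ht, hmax⟩ : ∃ t, 0 < t ∧ ∀ s, 0 < s → Module.finrank K (E s) ≤
      Module.finrank K (E t) := by
    by_contra hcon
    push Not at hcon
    have h1 : ∀ n : ℕ, ∃ t, 0 < t ∧ n ≤ Module.finrank K (E t) := by
      intro n
      induction n with
      | zero => exact ⟨1, one_pos, Nat.zero_le _⟩
      | succ n ih =>
        obtain ⟨t, ht, h⟩ := ih
        obtain ⟨s, hs, h2⟩ := hcon t ht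
        exact ⟨s, hs, by omega⟩
    obtain ⟨t, -, h⟩ := h1 (Module.finrank K V + 1)
    have := Submodule.finrank_le (E t)
    omega
  refine ⟨t, ht, fun s hs => ?_⟩
  have h1 := hE t s hs
  have h2 := Submodule.eq_of_le_of_finrank_le h1 (hmax _ (Nat.mul_pos ht hs))
  rw [h2, mul_comm]
  exact hE s t ht

end

end Pool.Agent.L7h89.RL
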