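import Pool.Agent.Y163.TateC

/-!
# Spectral projectors
-/

set_option autoImplicit false

open Polynomial

namespace Pool.Agent.L7h89.RL

section lin

variable {K V : Type*} [Field K] [AddCommGroup V] [Module K V] [Module.Finite K V]

/-- The projector onto a generalised eigenspace is a polynomial in the endomorphism. -/
lemma exists_spec (F : Module.End K V) (l : K) : ∃ (P : K[X]) (M : ℕ),
    aeval F P * aeval F P = aeval F P ∧
    LinearMap.range (aeval F P) = F.maxGenEigenspace l ∧
    (∃ a : K[X], 1 - aeval F P = (F - l • 1) ^ M * aeval F a) ∧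
    (F - l • 1) ^ M * aeval F P = 0 := by
  obtain ⟨Q, hQ, hdvd⟩ := exists_eq_pow_rootMultiplicity_mul_and_not_dvd F.charpoly
    F.charpoly_monic.ne_zero l
  set m := F.charpoly.rootMultiplicity l with hm
  set M := m + Module.finrank K V with hM
  have hcop : IsCoprime ((X - C l) ^ M) Q :=
    ((irreducible_X_sub_C l).coprime_iff_not_dvd.2 hdvd).pow_left
  obtain ⟨a, b, hab⟩ := hcop
  have hX : ∀ n : ℕ, aeval F ((X - C l) ^ n) = (F - l • 1) ^ n := by
    intro n
    rw [map_pow, map_sub, aeval_X, aeval_C, Algebra.algebraMap_eq_smul_one]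
  have h0 : aeval F ((X - C l) ^ M * Q) = 0 := by
    have e : (X - C l) ^ M * Q = (X - C l) ^ Module.finrank K V * F.charpoly := by
      rw [hM, pow_add]
      conv_rhs => rw [hQ]
      ring
    rw [e, map_mul, LinearMap.aeval_self_charpoly, mul_zero]
  have h1 : aeval F (b * Q) = 1 - (F - l • 1) ^ M * aeval F a := by
    have e : b * Q = 1 - (X - C l) ^ M * a := by
      rw [← hab]; ring
    rw [e, map_sub, map_one, map_mul, hX]
  have h2 : (F - l • 1) ^ M * aeval F (b * Q) = 0 := by
    rw [← hX, ← map_mul, show (X - C l) ^ M * (b * Q) = b * ((X - C l) ^ M * Q) by ring, map_mul,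
      h0, mul_zero]
  refine ⟨b * Q, M, ?_, ?_, ⟨a, ?_⟩, h2⟩
  · have e : b * Q * (b * Q) = b * Q - a * b * ((X - C l) ^ M * Q) := by
      have : b * Q * (b * Q) = b * Q * (1 - a * (X - C l) ^ M) := by rw [← hab]; ring
      rw [this]; ring
    rw [← map_mul, e, map_sub, map_mul _ (a * b), h0, mul_zero, sub_zero]
  · have hle : F.maxGenEigenspace l ≤ F.genEigenspace l (M : ℕ) := by
      rw [Module.End.maxGenEigenspace_eq_genEigenspace_finrank]
      exact (F.genEigenspace l).monotone (by exact_mod_cast (by omega : Module.finrank K V ≤ M))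
    apply le_antisymm
    · rintro _ ⟨y, rfl⟩
      rw [Module.End.mem_maxGenEigenspace]
      exact ⟨M, by rw [← Module.End.mul_apply, h2, LinearMap.zero_apply]⟩
    · intro x hx
      have h3 := hle hx
      rw [Module.End.mem_genEigenspace_nat, LinearMap.mem_ker] at h3
      refine ⟨x, ?_⟩
      rw [h1, LinearMap.sub_apply, Module.End.one_apply]
      have h4 : (F - l • 1) ^ M * aeval F a = aeval F a * (F - l • 1) ^ M := by
        rw [← hX, ← map_mul, ← map_mul, mul_comm]
      rw [h4, Module.End.mul_apply, h3, map_zero, sub_zero]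
  · rw [h1, sub_sub_cancel]

end lin

end Pool.Agent.L7h89.RL
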