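import Pool.Agent.L7h85.RL.Geo
import Pool.Agent.L7h89.RL.Spec

/-!
# The projector onto the generalised Tate classes

Task S_PRJ of the project RL of helper85.
-/

set_option autoImplicit false
set_option linter.unusedVariables false
set_option linter.unusedSectionVars false

open CategoryTheory AlgebraicGeometry CategoryTheory.Limits Polynomial

universe u v

namespace Pool.Agent.L7h89.RL

open Pool.Agent.H914 Pool.Agent.H447 Pool.Agent.W534 VarClass Obj WeilCohomology Module
open Pool.Agent.Y163 Pool.Agent.L7h85.RL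

variable {k : Type u} [Field k] {𝒱 : VarClass k} {ops : CycleOps 𝒱}
  {W : WeilCohomology.{u, v} ops} {X Y Z : 𝒱.Obj} {p : ℕ} (Φ : FrobSystem W p)

lemma frob_gr (Z : 𝒱.Obj) (s i : ℕ) : ∀ x ∈ W.gr Z i, frob Φ Z s x ∈ W.gr Z i :=
  fun _ hx => W.map_mem _ hx

/-- endomorphisms of degree zero commute with the projections to the degrees -/
lemma proj_comm {G : Module.End W.K (W.H Z)} (hG : Deg0 G) (i : ℕ) (x : W.H Z) :
    proj (W.isInternal Z) i (G x) = G (proj (W.isInternal Z) i x) := by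
  refine gr_induction (W.isInternal Z) (p := fun x =>
    proj (W.isInternal Z) i (G x) = G (proj (W.isInternal Z) i x)) ?_ ?_ x
  · intro j a ha
    by_cases hij : j = i
    · subst hij
      rw [proj_same _ (hG j a ha), proj_same _ ha]
    · rw [proj_ne _ (hG j a ha) hij, proj_ne _ ha hij, map_zero]
  · intro a b ha hb
    rw [map_add, map_add, map_add, map_add, ha, hb]

lemma sum_proj' (x : W.H Z) :
    ∑ i ∈ Finset.range (2 * Z.dim + 1), proj (W.isInternal Z) i x = x := by
  have h := congrArg (fun F => F x) (sum_proj (W.isInternal Z) (N := 2 * Z.dim + 1)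
    (fun i hi => W.gr_eq_bot Z i (by omega)))
  simpa only [LinearMap.sum_apply, Module.End.one_apply] using h

/-- the eigenvalues of the Frobenius endomorphism -/
lemma norm_of_eig {σ : W.K →+* ℂ} (hRH : RiemannHyp Φ σ Z) {t i M : ℕ} (ht : 0 < t) {μ : W.K}
    {x : W.H Z} (hx : x ∈ W.gr Z i) (hx0 : x ≠ 0)
    (h : ((frob Φ Z t - μ • (1 : Module.End W.K (W.H Z))) ^ M) x = 0) :
    ‖σ μ‖ ^ 2 = (card Φ Z t : ℝ) ^ i := by
  set g : Module.End W.K (W.gr Z i) := frobOn Φ Z t i with hg
  have hgp : ∀ (m : ℕ) (y : W.gr Z i), ((((g - μ • (1 : Module.End W.K (W.gr Z i))) ^ m) y :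
      W.gr Z i) : W.H Z) = ((frob Φ Z t - μ • (1 : Module.End W.K (W.H Z))) ^ m) (y : W.H Z) := by
    intro m
    induction m with
    | zero => intro y; rfl
    | succ m ih =>
      intro y
      rw [pow_succ', pow_succ', Module.End.mul_apply, Module.End.mul_apply, ← ih]
      rfl
  have h1 : ((g - μ • (1 : Module.End W.K (W.gr Z i))) ^ M) ⟨x, hx⟩ = 0 := by
    apply Subtype.ext
    rw [hgp]
    exact h
  have h2 : g.HasUnifEigenvalue μ (M : ℕ) := by
    rw [Module.End.HasUnifEigenvalue, Submodule.ne_bot_iff]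
    refine ⟨⟨x, hx⟩, ?_, fun h0 => hx0 (congrArg Subtype.val h0)⟩
    rw [Module.End.mem_genEigenspace_nat, LinearMap.mem_ker]
    exact h1
  have h3 : g.HasEigenvalue μ := h2.lt one_pos
  have h4 : g.charpoly.IsRoot μ := (Module.End.hasEigenvalue_iff_isRoot_charpoly g μ).1 h3
  apply hRH t ht i (σ μ)
  rw [frobPoly_eq, IsRoot.def, Polynomial.eval_map, Polynomial.eval₂_at_apply]
  rw [IsRoot.def] at h4
  rw [h4, map_zero]

/-- generalised eigenvectors of the Frobenius endomorphism are homogeneous -/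
lemma gr_of_eig {σ : W.K →+* ℂ} (hp : 1 < p) (hRH : RiemannHyp Φ σ Z) {t i M : ℕ} (ht : 0 < t)
    {μ : W.K} (hμ : ‖σ μ‖ ^ 2 = (card Φ Z t : ℝ) ^ i) {x : W.H Z}
    (h : ((frob Φ Z t - μ • (1 : Module.End W.K (W.H Z))) ^ M) x = 0) : x ∈ W.gr Z i := by
  have hq1 : (1 : ℝ) < (card Φ Z t : ℝ) := by
    have : 1 < card Φ Z t := Nat.one_lt_pow (Nat.mul_pos (Φ.e_pos Z) ht).ne' hp
    exact_mod_cast this
  have hG : Deg0 ((frob Φ Z t - μ • (1 : Module.End W.K (W.H Z))) ^ M) := by
    have h1 : Deg0 (frob Φ Z t - μ • (1 : Module.End W.K (W.H Z))) := by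
      intro j a ha
      rw [LinearMap.sub_apply, LinearMap.smul_apply, Module.End.one_apply]
      exact Submodule.sub_mem _ (W.map_mem _ ha) (Submodule.smul_mem _ _ ha)
    clear h
    induction M with
    | zero => exact fun j a ha => ha
    | succ M ih =>
      intro j a ha
      rw [pow_succ', Module.End.mul_apply]
      exact h1 j _ (ih j a ha)
  have key : ∀ j, j ≠ i → proj (W.isInternal Z) j x = 0 := by
    intro j hj
    by_contra h0
    have h1 := norm_of_eig Φ hRH ht (proj_mem (W.isInternal Z) j x) h0 (μ := μ) (M := M) (by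
      rw [← proj_comm hG, h, map_zero])
    exact hj (pow_right_injective₀ (by linarith) hq1.ne' (h1.symm.trans hμ))
  have h2 := sum_proj' (W := W) (Z := Z) x
  rw [← h2]
  apply Submodule.sum_mem
  intro j _
  by_cases hj : j = i
  · rw [hj]; exact proj_mem _ i x
  · rw [key j hj]; exact Submodule.zero_mem _

lemma aeval_mem {F : Module.End W.K (W.H Z)} (hF : F ∈ KAlg W Z) (P : W.K[X]) :
    aeval F P ∈ KAlg W Z := by
  have h1 : aeval F P = ((aeval (⟨F, hF⟩ : KAlg W Z) P : KAlg W Z) :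
      Module.End W.K (W.H Z)) := by
    rw [← Subalgebra.coe_val, ← Polynomial.aeval_algHom_apply]
    rfl
  rw [h1]
  exact Subtype.mem _

lemma adj_pow (f : Module.End W.K (W.H Z)) (n : ℕ) : adj (f ^ n) = adj f ^ n := by
  induction n with
  | zero => rw [pow_zero, pow_zero, adj_one]
  | succ n ih => rw [pow_succ, pow_succ', adj_mul, ih]

lemma adj_frob_mul (s : ℕ) : adj (frob Φ Z s) * frob Φ Z s =
    ((card Φ Z s : W.K) ^ Z.dim) • (1 : Module.End W.K (W.H Z)) := by
  apply LinearMap.ext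
  intro b
  rw [Module.End.mul_apply, LinearMap.smul_apply, Module.End.one_apply, ← sub_eq_zero]
  apply nondeg_right
  intro a
  rw [mul_sub, map_sub, ← adj_spec, frob_apply, frob_apply, ← map_mul, tr_iter, mul_smul_comm,
    map_smul, smul_eq_mul, card_pow, sub_self]

lemma frob_mul_adj (s : ℕ) : frob Φ Z s * adj (frob Φ Z s) =
    ((card Φ Z s : W.K) ^ Z.dim) • (1 : Module.End W.K (W.H Z)) := by
  set c := (card Φ Z s : W.K) ^ Z.dim with hc
  have hc0 : c ≠ 0 := pow_ne_zero _ (card_ne Φ s)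
  have h1 : (c⁻¹ • adj (frob Φ Z s)) * frob Φ Z s = 1 := by
    rw [smul_mul_assoc, adj_frob_mul, smul_smul, inv_mul_cancel₀ hc0, one_smul]
  have h2 := _root_.mul_eq_one_comm.1 h1
  rw [mul_smul_comm] at h2
  rw [← h2, smul_smul, mul_inv_cancel₀ hc0, one_smul]

theorem s_PRJ (σ : W.K →+* ℂ) : S_PRJ Φ σ := by
  intro hp _ hRH Z q hZ
  obtain ⟨t, ht, hstab⟩ : ∃ t, 0 < t ∧ genTate Φ Z t q = genU Φ Z q := by
    have h := (exists_stable Φ Z q).choose_spec
    exact ⟨_, h.1, genU_eq Φ h.1 dvd_rfl⟩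
  set F := frob Φ Z t with hF
  set l : W.K := (card Φ Z t : W.K) ^ q with hl
  obtain ⟨P, M, hidem, hrange, ⟨a, ha⟩, hkill⟩ := exists_spec F l
  set π := aeval F P with hπ
  have hFmem : F ∈ KAlg W Z := map_mem_KOp _
  have hπmem : π ∈ KOp W Z Z 0 := aeval_mem hFmem P
  have hrange' : LinearMap.range π = genU Φ Z q := by
    rw [hrange, ← hstab, genTate]
    refine (inf_of_le_left ?_).symm
    intro x hx
    rw [Module.End.mem_maxGenEigenspace] at hx
    obtain ⟨n, hn⟩ := hx
    refine gr_of_eig Φ hp (hRH Z) ht (μ := l) ?_ hn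
    rw [hl, map_pow, map_natCast, norm_pow, Complex.norm_natCast, ← pow_mul, mul_comm]
  -- `adj π = π`
  have hadj : adj π = π := by
    have hc1 : Commute (adj F - l • 1) F := by
      rw [commute_iff_eq, sub_mul, mul_sub, adj_frob_mul, frob_mul_adj]
      simp
    have hll : (card Φ Z t : W.K) ^ Z.dim = l * l := by
      rw [hZ, hl, ← pow_add, two_mul]
    have h1 : (adj F - l • 1) * F = (-l) • (F - l • 1) := by
      rw [sub_mul, adj_frob_mul, hll, smul_mul_assoc, one_mul, smul_sub, neg_smul, neg_smul,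
        smul_smul]
      abel
    have h2 : (adj F - l • 1) ^ M * F ^ M = ((-l) ^ M) • (F - l • 1) ^ M := by
      rw [← hc1.mul_pow, h1, _root_.smul_pow]
    have h3 : adj π * (adj F - l • 1) ^ M = 0 := by
      have h4 := congrArg adj hkill
      rw [adj_mul, adj_pow, adj_sub, adj_smul, adj_one, adj_zero] at h4
      exact h4
    have h5 : adj π * (F - l • 1) ^ M = 0 := by
      have h6 : adj π * ((adj F - l • 1) ^ M * F ^ M) = 0 := by rw [← mul_assoc, h3, zero_mul]
      rw [h2, mul_smul_comm, smul_eq_zero] at h6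
      exact h6.resolve_left (pow_ne_zero _ (neg_ne_zero.2 (pow_ne_zero _ (card_ne Φ t))))
    have h7 : adj π = adj π * π := by
      have h8 : adj π * (1 - π) = 0 := by rw [ha, ← mul_assoc, h5, zero_mul]
      rw [mul_sub, mul_one, sub_eq_zero] at h8
      exact h8
    have h9 := congrArg adj h7
    rw [adj_mul, adj_adj hπmem] at h9
    rw [h7, ← h9]
  -- `f π f = f π`
  have hstable : ∀ f ∈ KOp W Z Z 0, π * (f * π) = f * π := by
    intro f hf
    apply LinearMap.ext
    intro x
    have h1 : f (π x) ∈ LinearMap.range π := by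
      rw [hrange']
      apply (genFam Φ).stable hf (by ring : ((q : ℕ) : ℤ) = q + 0)
      rw [genFam_T, ← hrange']
      exact ⟨x, rfl⟩
    obtain ⟨y, hy⟩ := h1
    rw [Module.End.mul_apply, Module.End.mul_apply, ← hy, ← Module.End.mul_apply, hidem]
  refine ⟨π, hπmem, hidem, hrange', fun f hf => ?_, hadj⟩
  have h1 := congrArg adj (hstable _ (adj_mem hf))
  rw [adj_mul, adj_mul, adj_adj hf, hadj] at h1
  rw [← h1, mul_assoc, hstable f hf]

end Pool.Agent.L7h89.RL
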