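import Pool.Agent.L7h89.RL.Prj

/-!
# The splitting of a variety

Task S_SPL of the project RL of helper85.
-/

set_option autoImplicit false
set_option linter.unusedVariables false
set_option linter.unusedSectionVars false

open CategoryTheory AlgebraicGeometry CategoryTheory.Limits

universe u v

namespace Pool.Agent.L7h89.RL

open Pool.Agent.Y163 Module

section lin

variable {K : Type*} [Field K]

/-- The dimension of a subspace which is stable under an idempotent. -/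
lemma finrank_split {V : Type*} [AddCommGroup V] [Module K V] (T : Module.End K V)
    (hT : T * T = T) (U : Submodule K V) [Module.Finite K U] (hU : ∀ x ∈ U, T x ∈ U) :
    finrank K U = finrank K (U.map T) + finrank K (U.map (1 - T)) := by
  have hTT : ∀ x, T (T x) = T x := fun x => by rw [← Module.End.mul_apply, hT]
  have h1 := LinearMap.finrank_range_add_finrank_ker (T.domRestrict U)
  have h2 : LinearMap.range (T.domRestrict U) = U.map T := by
    rw [LinearMap.domRestrict, LinearMap.range_comp, Submodule.range_subtype]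
  have h3 : (LinearMap.ker (T.domRestrict U)).map U.subtype = U.map (1 - T) := by
    ext x
    simp only [Submodule.mem_map, LinearMap.mem_ker, LinearMap.domRestrict_apply,
      Submodule.subtype_apply, Subtype.exists, exists_and_left, LinearMap.sub_apply,
      Module.End.one_apply]
    constructor
    · rintro ⟨y, hy0, hyU, rfl⟩
      exact ⟨y, hyU, by rw [hy0, sub_zero]⟩
    · rintro ⟨y, hyU, rfl⟩
      exact ⟨y - T y, by rw [map_sub, hTT, sub_self], U.sub_mem hyU (hU y hyU), rfl⟩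
  have h4 : finrank K (LinearMap.ker (T.domRestrict U)) = finrank K (U.map (1 - T)) := by
    rw [← h3]
    exact (LinearEquiv.finrank_eq (Submodule.equivMapOfInjective _ U.injective_subtype _))
  rw [← h1, h2, h4]

variable {V₁ : Type*} [AddCommGroup V₁] [Module K V₁] {V₂ : Type*}
  [AddCommGroup V₂] [Module K V₂] [Module.Finite K V₁] [Module.Finite K V₂]
  {B₁ : Subalgebra K (End K V₁)} {B₂ : Subalgebra K (End K V₂)}
  {P : Submodule K (V₁ →ₗ[K] V₂)} {Q : Submodule K (V₂ →ₗ[K] V₁)}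

/-- The multiplicities are additive in orthogonal idempotents. -/
lemma mu_add (D : Duo B₁ B₂ P Q) (h : End K V₂) {f₁ f₂ : End K V₁} (hf₁ : f₁ ∈ B₁)
    (h11 : f₁ * f₁ = f₁) (h12 : f₁ * f₂ = 0) (h21 : f₂ * f₁ = 0) :
    mu P Q h (f₁ + f₂) = mu P Q h f₁ + mu P Q h f₂ := by
  let L : Q →ₗ[K] Q :=
    { toFun := fun y => ⟨f₁ ∘ₗ (y : V₂ →ₗ[K] V₁), D.fy _ hf₁ _ y.2⟩
      map_add' := fun x y => Subtype.ext (LinearMap.comp_add _ _ _)
      map_smul' := fun c x => Subtype.ext (LinearMap.comp_smul _ _ _) }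
  let R : P →ₗ[K] P :=
    { toFun := fun x => ⟨(x : V₁ →ₗ[K] V₂) ∘ₗ f₁, D.xf _ hf₁ _ x.2⟩
      map_add' := fun x y => Subtype.ext (LinearMap.add_comp _ _ _)
      map_smul' := fun c x => Subtype.ext (LinearMap.smul_comp _ _ _) }
  set β := bt P Q h (f₁ + f₂) with hβ
  have e1 : β ∘ₗ R = bt P Q h f₁ := by
    apply LinearMap.ext
    intro x
    apply LinearMap.ext
    intro y
    have e2 : (β ∘ₗ R) x y = LinearMap.trace K V₁
        ((y : V₂ →ₗ[K] V₁) ∘ₗ h ∘ₗ ((x : V₁ →ₗ[K] V₂) ∘ₗ f₁) ∘ₗ (f₁ + f₂)) := rfl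
    have e3 : (y : V₂ →ₗ[K] V₁) ∘ₗ h ∘ₗ ((x : V₁ →ₗ[K] V₂) ∘ₗ f₁) ∘ₗ (f₁ + f₂) =
        ((y : V₂ →ₗ[K] V₁) ∘ₗ h ∘ₗ (x : V₁ →ₗ[K] V₂)) * (f₁ * (f₁ + f₂)) := rfl
    rw [e2, e3, mul_add, h11, h12, add_zero]
    rfl
  have e4 : L.dualMap ∘ₗ β = bt P Q h f₁ := by
    apply LinearMap.ext
    intro x
    apply LinearMap.ext
    intro y
    have e2 : (L.dualMap ∘ₗ β) x y = LinearMap.trace K V₁
        (f₁ * (((y : V₂ →ₗ[K] V₁) ∘ₗ h ∘ₗ (x : V₁ →ₗ[K] V₂)) * (f₁ + f₂))) := rfl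
    rw [e2, LinearMap.trace_mul_comm, mul_assoc, add_mul, h11, h21, add_zero]
    rfl
  have e5 : (1 - L.dualMap) ∘ₗ β = bt P Q h f₂ := by
    have e6 : (1 - L.dualMap) ∘ₗ β = β - L.dualMap ∘ₗ β := by
      rw [LinearMap.sub_comp]; rfl
    rw [e6, e4, hβ]
    apply LinearMap.ext
    intro x
    apply LinearMap.ext
    intro y
    rw [LinearMap.sub_apply, LinearMap.sub_apply, bt_apply, bt_apply, bt_apply, ← map_sub]
    congr 1
    apply LinearMap.ext
    intro z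
    simp only [LinearMap.sub_apply, LinearMap.comp_apply, LinearMap.add_apply, map_add]
    abel
  have hLL : L.dualMap * L.dualMap = L.dualMap := by
    apply LinearMap.ext
    intro φ
    apply LinearMap.ext
    intro y
    change φ (L (L y)) = φ (L y)
    congr 1
    apply Subtype.ext
    change f₁ ∘ₗ (f₁ ∘ₗ (y : V₂ →ₗ[K] V₁)) = f₁ ∘ₗ (y : V₂ →ₗ[K] V₁)
    rw [← LinearMap.comp_assoc]
    exact congrArg (fun g => g ∘ₗ (y : V₂ →ₗ[K] V₁)) h11
  rw [mu, mu, mu, finrank_split L.dualMap hLL (LinearMap.range β) (by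
    rintro _ ⟨x, rfl⟩
    refine ⟨R x, ?_⟩
    rw [← LinearMap.comp_apply, e1, ← LinearMap.comp_apply, e4]), ← LinearMap.range_comp,
    ← LinearMap.range_comp, e4, e5]

end lin

open Pool.Agent.H914 Pool.Agent.H447 Pool.Agent.W534 VarClass Obj WeilCohomology
open Pool.Agent.L7h85.RL

variable {k : Type u} [Field k] {𝒱 : VarClass k} {ops : CycleOps 𝒱}
  {W : WeilCohomology.{u, v} ops} {X Y Z : 𝒱.Obj} {p : ℕ} (Φ : FrobSystem W p)

lemma allPar (hp : 1 < p) (hK : IsAlgClosed W.K) (σ : W.K →+* ℂ)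
    (hRH : ∀ Z : 𝒱.Obj, RiemannHyp Φ σ Z) : AllPar W :=
  fun Z => par_mem_of_RH Φ hp σ (hRH Z)

/-- the number of homomorphisms is additive in orthogonal idempotents -/
lemma gh_add (hMU : S_MU W) (hpar : AllPar W) {Z : 𝒱.Obj} {f₁ f₂ : Module.End W.K (W.H Z)}
    (m₁ : f₁ ∈ KOp W Z Z 0) (m₂ : f₂ ∈ KOp W Z Z 0) (i₁ : f₁ * f₁ = f₁) (i₂ : f₂ * f₂ = f₂)
    (h12 : f₁ * f₂ = 0) (h21 : f₂ * f₁ = 0) (A : GOb W) (hA : A.Z = Z) (C : GOb W)
    (hAe : A.e = hA ▸ (f₁ + f₂)) :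
    gh A C = gh ⟨Z, f₁, m₁, i₁⟩ C + gh ⟨Z, f₂, m₂, i₂⟩ C := by
  obtain ⟨Z', e, hem, hei⟩ := A
  obtain rfl : Z' = Z := hA
  obtain rfl : e = f₁ + f₂ := hAe
  by_cases hpar2 : (Z'.dim + C.Z.dim) % 2 = 0
  · obtain ⟨r, hr⟩ : ∃ r : ℤ, (C.Z.dim : ℤ) = Z'.dim + 2 * r := ⟨((C.Z.dim : ℤ) - Z'.dim) / 2, by
      omega⟩
    rw [hMU hpar _ _ r hr, hMU hpar _ _ r hr, hMU hpar _ _ r hr]
    exact mu_add (duo W Z' C.Z r) C.e m₁ i₁ h12 h21
  · simp only [gh, if_neg hpar2]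

/-- an object of generalised Tate classes has no homomorphisms to an idempotent which kills the
generalised Tate classes -/
lemma gh_zero (hMU : S_MU W) (hpar : AllPar W) {Z : 𝒱.Obj} {q : ℕ} (hq : Z.dim = 2 * q)
    {f : Module.End W.K (W.H Z)} (m : f ∈ KOp W Z Z 0) (i : f * f = f)
    (hf : ∀ x ∈ genU Φ Z q, f x = 0) {S : GOb W} (hS : GT Φ S) : gh S ⟨Z, f, m, i⟩ = 0 := by
  obtain ⟨q', hq', hS⟩ := hS
  rw [hMU hpar S ⟨Z, f, m, i⟩ ((q : ℤ) - q') (by
    simp only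
    rw [hq, hq']; push_cast; ring)]
  have h0 : bt (KOp W S.Z Z ((q : ℤ) - q')) (KOp W Z S.Z (-((q : ℤ) - q'))) f S.e = 0 := by
    apply LinearMap.ext
    intro x
    apply LinearMap.ext
    intro y
    rw [bt_apply]
    have h1 : f ∘ₗ (x : W.H S.Z →ₗ[W.K] W.H Z) ∘ₗ S.e = 0 := by
      apply LinearMap.ext
      intro a
      rw [LinearMap.comp_apply, LinearMap.comp_apply, LinearMap.zero_apply]
      apply hf
      exact (genFam Φ).stable x.2 (j := q') (by ring) (hS ⟨a, rfl⟩)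
    rw [h1, LinearMap.comp_zero, map_zero]
    rfl
  simp only [mu]
  rw [h0, LinearMap.range_zero, finrank_bot]

theorem s_SPL (hMU : S_MU W) (σ : W.K →+* ℂ) : S_SPL Φ σ := by
  intro hp hK hRH 𝒮 hG Z q hq
  have hpar := allPar Φ hp hK σ hRH
  obtain ⟨π, hπm, hπi, hπr, -, -⟩ := s_PRJ Φ σ hp hK hRH Z q hq
  have h12 : π * (1 - π) = 0 := by rw [mul_sub, mul_one, hπi, sub_self]
  have h21 : (1 - π) * π = 0 := by rw [sub_mul, one_mul, hπi, sub_self]
  have m2 : (1 - π) ∈ KOp W Z Z 0 := (KAlg W Z).sub_mem (KAlg W Z).one_mem hπm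
  have i2 : (1 - π) * (1 - π) = 1 - π := by rw [sub_mul, one_mul, h12, sub_zero]
  have hπx : ∀ x ∈ genU Φ Z q, (1 - π) x = 0 := by
    intro x hx
    rw [← hπr] at hx
    obtain ⟨y, rfl⟩ := hx
    rw [← Module.End.mul_apply, h21, LinearMap.zero_apply]
  refine ⟨⟨Z, π, hπm, hπi⟩, ⟨Z, 1 - π, m2, i2⟩, ⟨⟨q, hq, hπr.le⟩, ?_, ?_, ?_⟩, ?_⟩
  · intro C
    rw [hG.h_eq, hG.h_eq, hG.h_eq]
    exact gh_add hMU hpar hπm m2 hπi i2 h12 h21 (gone W Z) rfl C (by
      simp only [gone]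
      abel)
  · rw [hG.dim_eq, hG.dim_eq, hG.dim_eq]
    have h := finrank_split π hπi ⊤ (fun _ _ => trivial)
    rw [Submodule.map_top, Submodule.map_top] at h
    have h2 : gdim (gone W Z) = finrank W.K (⊤ : Submodule W.K (W.H Z)) := by
      have : LinearMap.range (1 : Module.End W.K (W.H Z)) = ⊤ := LinearMap.range_id
      rw [← this]
      rfl
    rw [h2, h]
    rfl
  · intro S _ hS
    rw [hG.h_eq]
    exact gh_zero Φ hMU hpar hq m2 i2 hπx hS
  · rw [← hπr]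
    rfl

end Pool.Agent.L7h89.RL
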